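import Pool.Agent.K3h88.LCT.Stm

/-! # Locally constructible complexes: the top cycles in the star of a face -/

set_option autoImplicit false

namespace Pool.Agent.K3h3.LCT

open Finset Pool.Agent.Helper611 Pool.Agent.K3h88.LCM Pool.Agent.K3h88.LCT

theorem sgn_two {n : ℕ} (x : Fin n) (ρ : Finset (Fin n)) (a : ZMod 2) :
    ZBase.sgn x ρ • a = a := by
  unfold ZBase.sgn
  rcases neg_one_pow_eq_or ℤ (ρ.filter (· < x)).card with h | h
  · rw [h, one_smul]
  · rw [h, neg_smul, one_smul]
    revert a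
    decide

variable {n : ℕ} {F : Finset (Finset (Fin n))}

/-- The boundary at a tetrahedron is the sum over the facets. -/
theorem bd_eq (hF : ∀ A ∈ F, A.card = 5) (c : Finset (Fin n) → ZMod 2)
    (hc : ∀ σ, σ ∉ F → c σ = 0) (ρ : Finset (Fin n)) (hρ : ρ.card = 4) :
    ZBase.bd c ρ = ∑ A ∈ F.filter (fun A => ρ ⊆ A), c A := by
  unfold ZBase.bd
  simp_rw [sgn_two]
  have hinj : Set.InjOn (fun x => insert x ρ) (ρᶜ : Finset (Fin n)) := by
    intro x hx y hy hxy
    have hx' : x ∉ ρ := by simpa using hx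
    exact (Finset.insert_inj hx').1 hxy
  rw [← Finset.sum_image (s := ρᶜ) (g := fun x => insert x ρ) (f := c) hinj]
  symm
  refine Finset.sum_subset ?_ ?_
  · intro A hA
    rw [mem_filter] at hA
    obtain ⟨x, hx, rfl⟩ := Finset.exists_eq_insert_iff.2 ⟨hA.2, by rw [hρ, hF A hA.1]⟩
    exact mem_image.2 ⟨x, mem_compl.2 hx, rfl⟩
  · intro A hA hA'
    obtain ⟨x, hx, rfl⟩ := mem_image.1 hA
    refine hc _ fun h => hA' ?_
    rw [mem_filter]
    exact ⟨h, Finset.subset_insert _ _⟩

theorem supp {τ : Finset (Fin n)} {c : Finset (Fin n) → ZMod 2}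
    (hc : c ∈ topcyc (kx F) τ) {σ : Finset (Fin n)} (h : ¬ (σ ∈ F ∧ τ ⊆ σ))
    (hF : ∀ A ∈ F, A.card = 5) : c σ = 0 := by
  refine hc.1 σ fun h' => h ⟨?_, h'.2.1⟩
  obtain ⟨h1, -, h2⟩ := h'
  have h3 : σ ∈ insert ∅ (faces F) := h1
  rw [mem_insert, Pool.Agent.K3h88.LCT.mem_faces] at h3
  rcases h3 with rfl | ⟨-, A, hA, hσA⟩
  · simp at h2
  · rwa [Finset.eq_of_subset_of_card_le hσA (by rw [hF A hA, h2])]

/-- A cycle takes the same value on the facets of the star. -/
theorem const (hN : Nice F) {τ : Finset (Fin n)} (hτ : τ.Nonempty)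
    {c : Finset (Fin n) → ZMod 2} (hc : c ∈ topcyc (kx F) τ) {A B : Finset (Fin n)}
    (hA : A ∈ F) (hB : B ∈ F) (hτA : τ ⊆ A) (hτB : τ ⊆ B) : c A = c B := by
  have h := hN.res τ hτ A hA B hB hτA hτB
  unfold Same at h
  induction h with
  | refl => rfl
  | tail _ h2 ih =>
    rename_i B' C' _
    obtain ⟨h3, h4, ρ, hρ, h5, h6, h7⟩ := h2
    rw [ih h3 (h5.trans h6)]
    have h8 := hρ
    unfold tets at h8
    rw [mem_filter] at h8
    obtain ⟨-, h9, h10⟩ := h8
    by_cases he : B' = C'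
    · rw [he]
    · have h11 : F.filter (fun A => ρ ⊆ A) = {B', C'} := by
        symm
        refine Finset.eq_of_subset_of_card_le ?_ ?_
        · intro D hD
          rw [mem_insert, mem_singleton] at hD
          rw [mem_filter]
          rcases hD with rfl | rfl
          · exact ⟨h3, h6⟩
          · exact ⟨h4, h7⟩
        · rw [h10, Finset.card_pair he]
      have h12 := hc.2 ρ h5
      rw [bd_eq hN.pure c (fun σ hσ => supp hc (fun h => hσ h.1) hN.pure) ρ h9, h11,
        Finset.sum_pair he] at h12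
      exact CharTwo.add_eq_zero.1 h12

theorem tpc : StmTpc := by
  intro n F hN τ hτ
  have hτ' := Pool.Agent.K3h88.LCT.mem_faces.1 hτ
  obtain ⟨hne, A₀, hA₀, hτA₀⟩ := hτ'
  split_ifs with h
  · have h0 : topcyc (kx F) τ = ⊥ := by
      rw [eq_bot_iff]
      intro c hc
      rw [Submodule.mem_bot]
      obtain ⟨-, ρ, hρ, hτρ⟩ := Pool.Agent.K3h88.LCT.mem_faces.1 h
      have h8 := hρ
      unfold tets at h8
      rw [mem_filter] at h8
      obtain ⟨-, h9, h10⟩ := h8
      obtain ⟨A, hA⟩ := Finset.card_eq_one.1 h10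
      have h12 := hc.2 ρ hτρ
      rw [bd_eq hN.pure c (fun σ hσ => supp hc (fun h => hσ h.1) hN.pure) ρ h9, hA,
        Finset.sum_singleton] at h12
      have hA' : A ∈ F.filter (fun A => ρ ⊆ A) := by rw [hA]; exact mem_singleton_self _
      rw [mem_filter] at hA'
      funext σ
      by_cases hσ : σ ∈ F ∧ τ ⊆ σ
      · rw [const hN hne hc hσ.1 hA'.1 hσ.2 (hτρ.trans hA'.2), h12]
        rfl
      · exact supp hc hσ hN.pure
    rw [h0, finrank_bot]
  · have hc0 : (fun σ => if σ ∈ F ∧ τ ⊆ σ then (1 : ZMod 2) else 0) ∈ topcyc (kx F) τ := by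
      refine ⟨fun σ hσ => ?_, fun ρ hρ => ?_⟩
      · dsimp only
        rw [if_neg]
        rintro ⟨h1, h2⟩
        refine hσ ⟨?_, h2, hN.pure σ h1⟩
        show σ ∈ insert ∅ (faces F)
        rw [mem_insert, Pool.Agent.K3h88.LCT.mem_faces]
        exact Or.inr ⟨hne.mono h2, σ, h1, subset_rfl⟩
      · by_cases h4 : ρ.card = 4
        · rw [bd_eq hN.pure _ (fun σ hσ => if_neg fun h => hσ h.1) ρ h4]
          have e1 : ∑ A ∈ F.filter (fun A => ρ ⊆ A),
              (if A ∈ F ∧ τ ⊆ A then (1 : ZMod 2) else 0) =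
              ((F.filter (fun A => ρ ⊆ A)).card : ZMod 2) := by
            rw [Finset.sum_congr rfl (g := fun _ => (1 : ZMod 2)), Finset.sum_const, nsmul_eq_mul,
              mul_one]
            intro A hA
            rw [mem_filter] at hA
            rw [if_pos ⟨hA.1, hρ.trans hA.2⟩]
          rw [e1]
          have h2 := hN.two ρ h4
          have h1 : (F.filter (fun A => ρ ⊆ A)).card ≠ 1 := by
            intro h1
            apply h
            rw [Pool.Agent.K3h88.LCT.mem_faces]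
            refine ⟨hne, ρ, ?_, hρ⟩
            unfold tets
            rw [mem_filter, Pool.Agent.K3h88.LCT.mem_faces]
            obtain ⟨A, hA⟩ := Finset.card_eq_one.1 h1
            have hA' : A ∈ F.filter (fun A => ρ ⊆ A) := by rw [hA]; exact mem_singleton_self _
            rw [mem_filter] at hA'
            exact ⟨⟨hne.mono hρ, A, hA'.1, hA'.2⟩, h4, h1⟩
          have h3 : (F.filter (fun A => ρ ⊆ A)).card = 0 ∨
              (F.filter (fun A => ρ ⊆ A)).card = 2 := by omega
          rcases h3 with h3 | h3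
          · rw [h3]; rfl
          · rw [h3]; rfl
        · unfold ZBase.bd
          refine Finset.sum_eq_zero fun x hx => ?_
          dsimp only
          rw [if_neg, smul_zero]
          rintro ⟨h1, -⟩
          have h2 := hN.pure _ h1
          rw [Finset.card_insert_of_notMem (mem_compl.1 hx)] at h2
          omega
    refine finrank_eq_one_iff'.2 ⟨⟨_, hc0⟩, ?_, ?_⟩
    · intro h1
      have h2 := congrFun (congrArg Subtype.val h1) A₀
      simp [hA₀, hτA₀] at h2
    · rintro ⟨w, hw⟩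
      refine ⟨w A₀, Subtype.ext ?_⟩
      funext σ
      show w A₀ * (if σ ∈ F ∧ τ ⊆ σ then (1 : ZMod 2) else 0) = w σ
      by_cases hσ : σ ∈ F ∧ τ ⊆ σ
      · rw [if_pos hσ, mul_one]
        exact const hN hne hw hA₀ hσ.1 hτA₀ hσ.2
      · rw [if_neg hσ, mul_zero, supp hw hσ hN.pure]

end Pool.Agent.K3h3.LCT
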